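import Pool.Agent.P8H36.FD.Val
import Pool.Agent.P8H36.JT.Rank

/-! Linear independence over the field generated by the pair, from leading polynomials. -/

set_option autoImplicit false
set_option linter.unusedSectionVars false
set_option linter.unusedSimpArgs false

namespace Pool.Agent.P8H36.FD

open MvPolynomial Pool.Agent.TH207.Ser Pool.Agent.TH207.Tz Pool.Agent.P8H36.JT

open scoped IntermediateField

theorem indep_deg (LIN : S_LIN) {k : Type} [Field k] [CharZero k] {a b : ℕ} (ha : 0 < a)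
    (hb : 0 < b) (hcop : Nat.Coprime a b) {F G : MvPolynomial (Fin 2) k}
    {S : MvPolynomial (Fin 2) k →ₐ[k] MvPolynomial (Fin 2) k} {L ρ σ H : ℕ} {f g : Polynomial k}
    (hS : S (X 0) = X 0 ^ L) (hH : 0 < H) (hf0 : f ≠ 0) (hg0 : g ≠ 0)
    (hf' : Polynomial.derivative f ≠ 0)
    (v1 : Vp S L ρ σ F (a * H) f) (v2 : Vp S L ρ σ G (b * H) g)
    (v3 : Vp S L ρ σ (pderiv 1 F) (a * H + σ) (Polynomial.derivative f))
    (v4 : Vp S L ρ σ (pderiv 1 G) (b * H + σ) (Polynomial.derivative g))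
    {d : ℕ} (htr : Transcendental k (phi a b f g))
    (hli : LinearIndependent k⟮phi a b f g⟯ (fun i : Fin d => psi f g ^ (i : ℕ)))
    (P : Fin d → MvPolynomial (Fin 2) k)
    (h : ∑ i, aeval ![F, G] (P i) * Tk d F G i = 0) : ∀ i, P i = 0 := by
  classical
  by_contra hcon
  push Not at hcon
  obtain ⟨i0, hi0⟩ := hcon
  obtain ⟨m0, hm0⟩ : (P i0).support.Nonempty := by
    rw [Finset.nonempty_iff_ne_empty, Ne, support_eq_empty]; exact hi0
  obtain ⟨s, hs⟩ : ∃ s, s = (Finset.univ : Finset (Fin d)).sigma (fun i => (P i).support) := ⟨_, rfl⟩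
  have hne : s.Nonempty :=
    ⟨⟨i0, m0⟩, by rw [hs]; simp only [Finset.mem_sigma, Finset.mem_univ, true_and]; exact hm0⟩
  obtain ⟨x, hx⟩ : ∃ x : (Σ _ : Fin d, (Fin 2 →₀ ℕ)) → ℤ, ∀ j, x j =
      ((j.2 0 : ℤ) * (a * H) + j.2 1 * (b * H)) + (d - 1) * (a * H + b * H + σ) :=
    ⟨fun j => _, fun j => rfl⟩
  obtain ⟨j0, hj0, hmax⟩ := s.exists_max_image x hne
  obtain ⟨q, hq⟩ : ∃ q : (Σ _ : Fin d, (Fin 2 →₀ ℕ)) → Polynomial k, ∀ j, q j =
      f ^ j.2 0 * g ^ j.2 1 * ((f * Polynomial.derivative g) ^ (j.1 : ℕ) *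
        (Polynomial.derivative f * g) ^ (d - 1 - (j.1 : ℕ))) := ⟨fun j => _, fun j => rfl⟩
  have hv : ∀ j : (Σ _ : Fin d, (Fin 2 →₀ ℕ)),
      Vp S L ρ σ ((F ^ j.2 0 * G ^ j.2 1) * Tk d F G j.1) (x j) (q j) := by
    rintro ⟨i, m⟩
    have h1 := (((v1.pow (m 0)).mul (v2.pow (m 1))).mul
      (((v1.mul v4).pow (i : ℕ)).mul ((v3.mul v2).pow (d - 1 - i))))
    have e1 : ((m 0 : ℤ) * (a * H) + m 1 * (b * H)) +
        (((i : ℕ) : ℤ) * (a * H + (b * H + σ)) + ((d - 1 - i : ℕ) : ℤ) * (a * H + σ + b * H)) =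
        ((m 0 : ℤ) * (a * H) + m 1 * (b * H)) + (d - 1) * (a * H + b * H + σ) := by
      have hi : (i : ℕ) ≤ d - 1 := by have := i.2; omega
      have hb : 1 ≤ d := by have := i.2; omega
      rw [Nat.cast_sub hi, Nat.cast_sub hb]
      push_cast; ring
    rw [e1] at h1
    rw [hx, hq]
    exact h1
  have h0 : ∑ j ∈ s, C (coeff j.2 (P j.1)) * ((F ^ j.2 0 * G ^ j.2 1) * Tk d F G j.1) = 0 := by
    rw [hs, Finset.sum_sigma, ← h]
    apply Finset.sum_congr rfl
    intro i _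
    rw [Pool.Agent.P8H36.JT.aeval_sum, Finset.sum_mul]
    apply Finset.sum_congr rfl
    intro m _
    ring
  have h1 := Vp.sum hS hv hmax h0
  -- pass to rational functions
  let ι := algebraMap (Polynomial k) (RatFunc k)
  have hι : Function.Injective ι := IsFractionRing.injective _ _
  have hD : ι (Polynomial.derivative f * g) ≠ 0 := by
    rw [Ne, map_eq_zero_iff _ hι]
    exact mul_ne_zero hf' hg0
  have h2 : ∑ j ∈ s.filter (fun j => x j = x j0), algebraMap k (RatFunc k) (coeff j.2 (P j.1)) *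
      (ι f ^ j.2 0 * ι g ^ j.2 1 * psi f g ^ (j.1 : ℕ)) = 0 := by
    have h3 := congrArg ι h1
    rw [map_sum, map_zero] at h3
    have h4 : ∀ j : (Σ _ : Fin d, (Fin 2 →₀ ℕ)), ι (Polynomial.C (coeff j.2 (P j.1)) * q j) =
        algebraMap k (RatFunc k) (coeff j.2 (P j.1)) *
          (ι f ^ j.2 0 * ι g ^ j.2 1 * psi f g ^ (j.1 : ℕ)) *
            ι (Polynomial.derivative f * g) ^ (d - 1) := by
      rintro ⟨i, m⟩
      have hi : (i : ℕ) + (d - 1 - i) = d - 1 := by have := i.2; omega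
      rw [hq, map_mul, map_mul, map_mul, map_mul, map_pow, map_pow, map_pow, map_pow]
      have e1 : ι (Polynomial.C (coeff m (P i))) = algebraMap k (RatFunc k) (coeff m (P i)) := by
        rw [RatFunc.algebraMap_eq_C]
        exact RatFunc.algebraMap_C _
      have e2 : psi f g ^ (i : ℕ) * ι (Polynomial.derivative f * g) ^ (i : ℕ) =
          ι (f * Polynomial.derivative g) ^ (i : ℕ) := by
        rw [← mul_pow]
        unfold psi
        rw [div_mul_cancel₀ _ hD]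
      rw [← hi, pow_add, ← e2, e1]
      simp only [map_mul, hi]
      rw [← hi]
      ring_nf
    rw [Finset.sum_congr rfl (fun j _ => h4 j), ← Finset.sum_mul] at h3
    exact (mul_eq_zero.1 h3).resolve_right (pow_ne_zero _ hD)
  obtain ⟨e, he⟩ : ∃ e : (Σ _ : Fin d, (Fin 2 →₀ ℕ)) → Fin d × ℕ × ℕ, ∀ j, e j =
      (j.1, j.2 0, j.2 1) := ⟨fun j => _, fun j => rfl⟩
  have hinj : Function.Injective e := by
    rintro ⟨i, m⟩ ⟨i', m'⟩ hh
    rw [he, he] at hh
    simp only [Prod.mk.injEq] at hh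
    obtain ⟨g1, g2, g3⟩ := hh
    have g5 : m = m' := fin2_ext g2 g3
    subst g1 g5
    rfl
  have hHz : (H : ℤ) ≠ 0 := by exact_mod_cast hH.ne'
  have h5 := LIN k (RatFunc k) (ι f) (ι g) (psi f g) a b d (a * j0.2 0 + b * j0.2 1)
    (by rw [Ne, map_eq_zero_iff _ hι]; exact hf0) (by rw [Ne, map_eq_zero_iff _ hι]; exact hg0)
    ha hb hcop htr hli ((s.filter (fun j => x j = x j0)).image e)
    (fun j => coeff (ee j.2.1 j.2.2) (P j.1)) ?_ ?_ ?_
  · rw [Finset.image_eq_empty] at h5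
    have h6 : j0 ∈ s.filter (fun j => x j = x j0) := Finset.mem_filter.2 ⟨hj0, rfl⟩
    rw [h5] at h6
    exact absurd h6 (Finset.notMem_empty _)
  · intro j hj
    obtain ⟨⟨i, m⟩, hm, rfl⟩ := Finset.mem_image.1 hj
    rw [he]
    have e3 : ee (m 0) (m 1) = m := fin2_ext (ee_zero _ _) (ee_one _ _)
    simp only [e3]
    rw [hs] at hm
    have := (Finset.mem_filter.1 hm).1
    simp only [Finset.mem_sigma, Finset.mem_univ, true_and] at this
    exact mem_support_iff.1 this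
  · intro j hj
    obtain ⟨⟨i, m⟩, hm, rfl⟩ := Finset.mem_image.1 hj
    rw [he]
    have h7 := (Finset.mem_filter.1 hm).2
    rw [hx, hx] at h7
    have h8 : (H : ℤ) * ((a : ℤ) * m 0 + b * m 1) = H * ((a : ℤ) * j0.2 0 + b * j0.2 1) := by
      simp only at h7
      linear_combination h7
    have h9 := mul_left_cancel₀ hHz h8
    show a * m 0 + b * m 1 = a * j0.2 0 + b * j0.2 1
    exact_mod_cast h9
  · rw [Finset.sum_image (fun j _ j' _ hh => hinj hh)]
    rw [← h2]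
    apply Finset.sum_congr rfl
    rintro ⟨i, m⟩ _
    rw [he]
    have e3 : ee (m 0) (m 1) = m := fin2_ext (ee_zero _ _) (ee_one _ _)
    simp only [e3]

end Pool.Agent.P8H36.FD
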