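import Mathlib

/-!
# Project FD: the field degree of a trapezoidal pair (MP_2d59ee_ag, hard row), statements

At the terminal edge the leading polynomials `f`, `g` (degrees `a n`, `b n`) satisfy `a H f g' - b H f' g = c ≠ 0`. With
`φ = f^b / g^a`, `ψ = f g' / (f' g)` the degree of `ℂ(x, y)` over `ℂ(F, G)` is at least the degree of `ψ` over `K(φ)`,
which is `a b n / w` with `w = [K(X) : K(φ, ψ)]`.
-/

set_option autoImplicit false

namespace Pool.Agent.P8H36.FD

open Polynomial IntermediateField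

/-- `φ = f^b / g^a`. -/
noncomputable def phi {K : Type} [Field K] (a b : ℕ) (f g : K[X]) : RatFunc K :=
  algebraMap K[X] (RatFunc K) f ^ b / algebraMap K[X] (RatFunc K) g ^ a

/-- `ψ = f g' / (f' g)`. -/
noncomputable def psi {K : Type} [Field K] (f g : K[X]) : RatFunc K :=
  algebraMap K[X] (RatFunc K) (f * derivative g) / algebraMap K[X] (RatFunc K) (derivative f * g)

/-- **LUR** (about 80 lines). A field between `K` and `K(X)` which contains a nonconstant polynomial is generated by a polynomial.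
Proof: `E ≠ ⊥`, by Lüroth (Mathlib, `RatFunc.Luroth.eq_adjoin_generator`) `E = K⟮t⟯`, `t = u / v` with coprime `u`, `v`
(`RatFunc.num`, `denom`). As `η ∈ K⟮t⟯`, `η = A(t) / B(t)` with coprime `A`, `B` (`mem_adjoin_simple_iff`, then divide by
the gcd). If `B` has a root `r`, write `B = (T - r) B1`: for the homogenisations (`A(u/v) v^N`) one gets
`η * (u - r v) * (…) = A^h(u, v) * v^j`; here `u - r v` is coprime to `v` and to `A^h(u, v)` (as `A(r) ≠ 0`:
`A^h(u, v) = A(r) v^(deg A) mod (u - r v)`), hence `u - r v` is a unit, and `t - r = (u - r v) / v`, so `E = K⟮1/(t - r)⟯ = K⟮v⟯`.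
If `B` is constant, `η v^(deg A) = A^h(u, v)`, which is coprime to `v` (the leading coefficient of `A` times `u^(deg A)` mod `v`), and
`deg A > 0`, hence `v` is a unit and `θ = u`. (`0 < θ.natDegree` as otherwise `E = ⊥`.) Any other proof is welcome,
for example: `X` is integral over `K[η]`, so the minimal polynomial of `X` over `E` has coefficients in `K[X]`. -/
def S_LUR : Prop := ∀ (K : Type) [Field K] [IsAlgClosed K] (E : IntermediateField K (RatFunc K)) (η : K[X]),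
  0 < η.natDegree → algebraMap K[X] (RatFunc K) η ∈ E →
    ∃ θ : K[X], 0 < θ.natDegree ∧ E = K⟮algebraMap K[X] (RatFunc K) θ⟯

/-- **CMP** (about 50 lines). Proof: `u / v = P0(θ) / Q0(θ)` with coprime `P0`, `Q0` (`mem_adjoin_simple_iff`, divide by the gcd;
`aeval (algebraMap θ) P = algebraMap (P.comp θ)`), so `u * Q0(θ) = v * P0(θ)` in `K[X]`; `P0.comp θ` and `Q0.comp θ` are coprime
(compose the Bezout identity); so `u` and `P0.comp θ` divide each other, `u = C e * P0.comp θ`, then `v = C e * Q0.comp θ`. -/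
def S_CMP : Prop := ∀ (K : Type) [Field K] (θ u v : K[X]), 0 < θ.natDegree → IsCoprime u v → v ≠ 0 → u ≠ 0 →
  algebraMap K[X] (RatFunc K) u / algebraMap K[X] (RatFunc K) v ∈ K⟮algebraMap K[X] (RatFunc K) θ⟯ →
    ∃ P Q : K[X], u = P.comp θ ∧ v = Q.comp θ

/-- **RHZ** (about 100 lines). Proof: let `w = deg θ ≥ 2` (for `w = 1` trivial). (i) For a root `z` of `θ'` with `f(z) = 0` let
`t = θ(z)`. Then `P(t) = 0`, `P = (T - t)^k P1`, `P1(t) ≠ 0`, `k ≥ 1`. Each root `y` of `θ - C t` is a root of `f ^ b = P.comp θ`, so a simple root of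
`f`; its multiplicity in `f ^ b` is `b`, in `P.comp θ` it is `k` times the multiplicity in `θ - C t`. So all the
roots of `θ - C t` have the same multiplicity `m`, `b = k m`, and `θ - C t = C e * h ^ m` with `h` squarefree; `m ≥ 2` because of `z`.
In the case `g(z) = 0` the same with `m ∣ a`. (ii) If `deg h ≥ 2`, `h'` has a root `z2`, not a root of `h`, and `θ' (z2) = 0`, so
`t2 = θ(z2) ≠ t` and `θ - C t2 = C e2 * h2 ^ m2`, `m2 ≥ 2`. Now `h ^ (m - 1)` and `h2 ^ (m2 - 1)` are coprime and divide `θ'`, of degree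
`w - 1`, but `(m - 1) deg h ≥ w / 2`, `(m2 - 1) deg h2 ≥ w / 2`: contradiction. So `deg h = 1` and `w = m` divides `b` (or `a`). -/
def S_RHZ : Prop := ∀ (K : Type) [Field K] [CharZero K] [IsAlgClosed K] (f g P Q θ : K[X]) (a b : ℕ), 1 ≤ a → 1 ≤ b →
  Squarefree f → Squarefree g → f ^ b = P.comp θ → g ^ a = Q.comp θ → 0 < θ.natDegree →
  (∀ z, (derivative θ).eval z = 0 → f.eval z = 0 ∨ g.eval z = 0) → θ.natDegree ∣ a ∨ θ.natDegree ∣ b

/-- **DGR** (about 120 lines), `theorem dgr : S_LUR → S_CMP → S_RHZ → S_DGR`. Proof: `f`, `f'` are coprime, `g`, `g'` are coprime, `f`, `g`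
are coprime (all from the identity), so `f`, `g` are squarefree. `φ` is not constant (a root of `f` is not one of `g`), hence
transcendental (`RatFunc.transcendental_of_ne_C`). Let `E = adjoin K {φ, ψ}`, `η = f' g`, a polynomial of degree `(a + b) n - 1`. It is in
`E` as `a H ψ - b H = c / η`. LUR: `E = K⟮θ⟯`, `w = deg θ = [K(X) : E]` (Mathlib: `RatFunc.finrank_eq_max_natDegree`), and
`[K(X) : K⟮φ⟯] = a b n` (the same theorem; `f ^ b`, `g ^ a` are coprime of degree `a b n`). So the degree of `ψ` over `K⟮φ⟯` is `a b n / w`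
(tower law) and `linearIndependent_pow` gives the last claim. CMP for `φ`: `f ^ b = P(θ)`, `g ^ a = Q(θ)`; CMP for `η / 1`: `η = R(θ)`,
so `w ∣ (a + b) n - 1`. At a root `z` of `θ'` with `f(z) ≠ 0`, `g(z) ≠ 0`: differentiate `f ^ b = P(θ)`, `g ^ a = Q(θ)`: `f'(z) = g'(z) = 0`,
against the identity. So RHZ applies. -/
def S_DGR : Prop := ∀ (K : Type) [Field K] [CharZero K] [IsAlgClosed K] (f g : K[X]) (a b n H : ℕ) (c : K), 2 ≤ a → 2 ≤ b →
  Nat.Coprime a b → 1 ≤ n → 1 ≤ H → c ≠ 0 → f.natDegree = a * n → g.natDegree = b * n →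
  ((a * H : ℕ) : K[X]) * f * derivative g - ((b * H : ℕ) : K[X]) * derivative f * g = C c →
  Transcendental K (phi a b f g) ∧ ∃ w : ℕ, 0 < w ∧ (w ∣ a ∨ w ∣ b) ∧ w ∣ (a + b) * n - 1 ∧
    ∀ d : ℕ, d * w ≤ a * b * n → LinearIndependent K⟮phi a b f g⟯ (fun i : Fin d => psi f g ^ (i : ℕ))

/-- **LIN** (about 80 lines). Proof: if `s` is not empty choose `j0 ∈ s`, `(x0, y0) = j0.2`. For `j ∈ s` we have
`a (x - x0) = b (y0 - y)`, so `x - x0 = b k`, `y - y0 = - a k` with an integer `k = k(j)` (coprimality) and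
`f ^ x g ^ y = f ^ x0 g ^ y0 φ ^ k` (integer powers, `f`, `g ≠ 0`). Divide: `∑_i (∑_{j ∈ s, j.1 = i} α j φ ^ k(j)) ψ ^ i = 0` with coefficients in `K⟮φ⟯`,
so by linear independence every coefficient is zero; the `k(j)` with the same `j.1` are different and `φ` is
transcendental, so the `α j` are zero: contradiction. -/
def S_LIN : Prop := ∀ (K L : Type) [Field K] [Field L] [Algebra K L] (f g ψ : L) (a b d M : ℕ), f ≠ 0 → g ≠ 0 → 0 < a → 0 < b →
  Nat.Coprime a b → Transcendental K (f ^ b / g ^ a) →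
  LinearIndependent K⟮f ^ b / g ^ a⟯ (fun i : Fin d => ψ ^ (i : ℕ)) →
  ∀ (s : Finset (Fin d × ℕ × ℕ)) (α : Fin d × ℕ × ℕ → K), (∀ j ∈ s, α j ≠ 0) → (∀ j ∈ s, a * j.2.1 + b * j.2.2 = M) →
    ∑ j ∈ s, algebraMap K L (α j) * (f ^ j.2.1 * g ^ j.2.2 * ψ ^ (j.1 : ℕ)) = 0 → s = ∅

/-- **ARI** (about 60 lines, elementary). Proof: let `N w ≥ a b n`. Case `w ∣ a`, `a = w a'`: `N ≥ a' b n`. If `a' ≥ 2` or `n ≥ 2`
then `N ≥ 2 b`; else `w = a`, `n = 1` and `w ∣ (a + b) - 1` gives `a ∣ b - 1`. Case `w ∣ b`, `b = w b'`: `N ≥ a n b'`, and `w ∣ a n - 1`, `a n = 1 + w r`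
(`r ≥ 1` as `a ≥ 2`). If `r ≥ 2`, `N ≥ b' + 2 b`; if `r = 1` then `a n = w + 1`, so `a ∣ w + 1`, and `N ≥ b + b'`. In all cases `N ≥ b`. -/
def S_ARI : Prop := ∀ (a b n w N : ℕ), 2 ≤ a → a < b → 1 ≤ n → 0 < w → (w ∣ a ∨ w ∣ b) → w ∣ (a + b) * n - 1 →
  a * b * n / w ≤ N → b ≤ N ∧ (¬ a ∣ b - 1 → b < N) ∧ (¬ a ∣ b - 1 → (∀ v, v ∣ b → ¬ a ∣ v + 1) → 2 * b ≤ N)

end Pool.Agent.P8H36.FD
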