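import Pool.Agent.P8H36.JT.Ends
import Pool.Agent.P8H36.FD.Stm

/-! Leading polynomials along the divisor of a terminal direction. -/

set_option autoImplicit false
set_option linter.unusedSectionVars false
set_option linter.unusedSimpArgs false

namespace Pool.Agent.P8H36.FD

open MvPolynomial Pool.Agent.TH207.Ser Pool.Agent.P8H36.JT

section tp

variable {k : Type*} [Field k]

/-- The trailing term of `P` is `h X ^ u`. -/
def Tp (P : Polynomial (Polynomial k)) (u : ℕ) (h : Polynomial k) : Prop :=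
  ∃ P1, P = Polynomial.X ^ u * P1 ∧ P1.coeff 0 = h

theorem Tp.mul {P Q : Polynomial (Polynomial k)} {u u' : ℕ} {h h' : Polynomial k} (hP : Tp P u h)
    (hQ : Tp Q u' h') : Tp (P * Q) (u + u') (h * h') := by
  obtain ⟨P1, h1, h2⟩ := hP
  obtain ⟨Q1, g1, g2⟩ := hQ
  refine ⟨P1 * Q1, ?_, ?_⟩
  · rw [h1, g1, pow_add]; ring
  · rw [Polynomial.mul_coeff_zero, h2, g2]

theorem Tp.shift {P : Polynomial (Polynomial k)} {u : ℕ} {h : Polynomial k} (hP : Tp P u h)
    (w : ℕ) : Tp (Polynomial.X ^ w * P) (w + u) h := by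
  obtain ⟨P1, h1, h2⟩ := hP
  refine ⟨P1, ?_, h2⟩
  rw [h1, pow_add]; ring

theorem Tp.coeff {P : Polynomial (Polynomial k)} {u : ℕ} {h : Polynomial k} (hP : Tp P u h) :
    P.coeff u = h := by
  obtain ⟨P1, h1, h2⟩ := hP
  rw [h1, Polynomial.coeff_X_pow_mul', if_pos le_rfl, Nat.sub_self, h2]

theorem Tp.coeff_lt {P : Polynomial (Polynomial k)} {u : ℕ} {h : Polynomial k} (hP : Tp P u h)
    {i : ℕ} (hi : i < u) : P.coeff i = 0 := by
  obtain ⟨P1, h1, h2⟩ := hP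
  rw [h1, Polynomial.coeff_X_pow_mul', if_neg (by omega)]

theorem Tp.of {P : Polynomial (Polynomial k)} {u : ℕ} {h : Polynomial k}
    (h1 : ∀ i < u, P.coeff i = 0) (h2 : P.coeff u = h) : Tp P u h := by
  obtain ⟨P1, hP1⟩ := Polynomial.X_pow_dvd_iff.2 h1
  refine ⟨P1, hP1, ?_⟩
  rw [← h2, hP1, Polynomial.coeff_X_pow_mul', if_pos le_rfl, Nat.sub_self]

end tp

variable {k : Type*} [Field k] [CharZero k]

variable {S : MvPolynomial (Fin 2) k →ₐ[k] MvPolynomial (Fin 2) k} {L ρ σ : ℕ}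

/-- The pole order along the divisor is `x` and the leading polynomial is `h` (no condition if
`h = 0`, apart from the vanishing of the higher terms). -/
def Vp (S : MvPolynomial (Fin 2) k →ₐ[k] MvPolynomial (Fin 2) k) (L ρ σ : ℕ)
    (P : MvPolynomial (Fin 2) k) (x : ℤ) (h : Polynomial k) : Prop :=
  ∃ D : ℕ, Le D 0 P ∧ ∃ u, Tp (N ρ σ (S (W D 0 P))) u h ∧ x = ρ * L * D - u

theorem N_shift (hS : S (X 0) = X 0 ^ L) {D M : ℕ} (h : D ≤ M)
    {P : MvPolynomial (Fin 2) k} (hP : Le D 0 P) :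
    N ρ σ (S (W M 0 P)) = Polynomial.X ^ (ρ * L * (M - D)) * N ρ σ (S (W D 0 P)) := by
  rw [W_shift h hP, map_mul, map_pow, hS, map_mul, map_pow, map_pow, N_X0, ← pow_mul, ← pow_mul,
    mul_assoc]

theorem Vp.mul {P Q : MvPolynomial (Fin 2) k} {x y : ℤ} {h h' : Polynomial k}
    (hP : Vp S L ρ σ P x h) (hQ : Vp S L ρ σ Q y h') : Vp S L ρ σ (P * Q) (x + y) (h * h') := by
  obtain ⟨D, h1, u, h2, h3⟩ := hP
  obtain ⟨E, g1, u', g2, g3⟩ := hQ
  refine ⟨D + E, Le_mul h1 g1, u + u', ?_, ?_⟩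
  · rw [W_mul h1 g1, map_mul, map_mul]; exact h2.mul g2
  · rw [h3, g3]; push_cast; ring

theorem Vp.one : Vp S L ρ σ 1 0 1 := by
  refine ⟨0, Le_one 0, 0, ?_, by simp⟩
  rw [W_one, pow_zero, map_one, map_one]
  exact ⟨1, by simp, by simp⟩

theorem Vp.pow {P : MvPolynomial (Fin 2) k} {x : ℤ} {h : Polynomial k} (hP : Vp S L ρ σ P x h)
    (n : ℕ) : Vp S L ρ σ (P ^ n) (n * x) (h ^ n) := by
  induction n with
  | zero => simpa using Vp.one
  | succ n ih =>
    have h1 := ih.mul hP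
    have e1 : (n : ℤ) * x + x = ((n + 1 : ℕ) : ℤ) * x := by push_cast; ring
    rw [e1, ← pow_succ, ← pow_succ] at h1
    exact h1

/-- The leading polynomials of the terms of highest order of a relation satisfy the relation. -/
theorem Vp.sum (hS : S (X 0) = X 0 ^ L) {ι : Type*} [DecidableEq ι] {s : Finset ι} {α : ι → k}
    {P : ι → MvPolynomial (Fin 2) k} {x : ι → ℤ} {h : ι → Polynomial k}
    (hv : ∀ i, Vp S L ρ σ (P i) (x i) (h i)) {X0 : ℤ} (hX : ∀ i ∈ s, x i ≤ X0)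
    (h0 : ∑ i ∈ s, C (α i) * P i = 0) :
    ∑ i ∈ s.filter (fun i => x i = X0), Polynomial.C (α i) * h i = 0 := by
  choose D h1 u h2 h3 using hv
  by_cases hne : ∃ i0 ∈ s, x i0 = X0
  · obtain ⟨i0, hi0, hx0⟩ := hne
    obtain ⟨M, hM⟩ : ∃ M, ∀ i ∈ s, D i ≤ M := ⟨s.sup D, fun i hi => Finset.le_sup hi⟩
    have h4 : ∀ i ∈ s, Tp (N ρ σ (S (W M 0 (P i)))) (ρ * L * (M - D i) + u i) (h i) := by
      intro i hi
      rw [N_shift hS (hM i hi) (h1 i)]
      exact (h2 i).shift _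
    have h5 : ∀ i ∈ s, ((ρ * L * (M - D i) + u i : ℕ) : ℤ) = ρ * L * M - x i := by
      intro i hi
      have g1 := hM i hi
      rw [h3 i]
      push_cast [Nat.cast_sub g1]
      ring
    obtain ⟨w, hw⟩ : ∃ w, w = ρ * L * (M - D i0) + u i0 := ⟨_, rfl⟩
    have hwz : (w : ℤ) = ρ * L * M - X0 := by rw [hw, h5 i0 hi0, hx0]
    have h6 := congrArg (fun Q => (N ρ σ (S (W M 0 Q))).coeff w) h0
    simp only [map_sum, map_zero, Polynomial.finsetSum_coeff, Polynomial.coeff_zero] at h6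
    rw [Finset.sum_filter]
    refine Eq.trans (Finset.sum_congr rfl ?_) h6
    intro i hi
    have e1 : (N ρ σ (S (W M 0 (C (α i) * P i)))).coeff w =
        Polynomial.C (α i) * (N ρ σ (S (W M 0 (P i)))).coeff w := by
      rw [C_mul', map_smul, map_smul, map_smul, Polynomial.coeff_smul]
      rw [← Polynomial.smul_eq_C_mul]
    rw [e1]
    split_ifs with hxi
    · have : w = ρ * L * (M - D i) + u i := by
        have := h5 i hi
        rw [hxi, ← hwz] at this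
        exact_mod_cast this.symm
      rw [this, (h4 i hi).coeff]
    · have : w < ρ * L * (M - D i) + u i := by
        have g1 := h5 i hi
        have g2 := lt_of_le_of_ne (hX i hi) hxi
        zify
        push_cast at g1
        rw [hwz]
        linarith
      rw [(h4 i hi).coeff_lt this, mul_zero]
  · push Not at hne
    rw [Finset.filter_false_of_mem (fun i hi => hne i hi), Finset.sum_empty]

/-- The leading polynomial of the derivative. -/
theorem Vp_pd (hS : ∀ P, pderiv 1 (S P) = S (pderiv 1 P)) {D : ℕ} {P : MvPolynomial (Fin 2) k}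
    (hP : Le D 0 P) {m : ℕ} (hm : ∀ n < m, (N ρ σ (S (W D 0 P))).coeff n = 0)
    (h : Polynomial.derivative ((N ρ σ (S (W D 0 P))).coeff m) ≠ 0) :
    Vp S L ρ σ (pderiv 1 P) (ρ * L * D - m + σ)
      (Polynomial.derivative ((N ρ σ (S (W D 0 P))).coeff m)) := by
  have hσ : σ ≤ m := by
    by_contra hlt
    push Not at hlt
    exact h ((N_pd ρ σ _).2 m hlt)
  have hN : ∀ n, (N ρ σ (S (W D 0 (pderiv 1 P)))).coeff n =
      Polynomial.derivative ((N ρ σ (S (W D 0 P))).coeff (σ + n)) := by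
    intro n
    rw [← (N_pd ρ σ _).1 n, hS, W_pd hP, Nat.sub_zero]
  have hLe : Le D 0 (pderiv 1 P) := Le_pd hP
  refine ⟨D, hLe, m - σ, Tp.of ?_ ?_, ?_⟩
  · intro n hn
    rw [hN, hm _ (by omega), Polynomial.derivative_zero]
  · rw [hN, Nat.add_sub_cancel' hσ]
  · rw [Nat.cast_sub hσ]; ring

theorem endsP [IsAlgClosed k] {a b D0 d0 : ℕ} (ha : 2 ≤ a) (hb : 0 < b)
    {F G : MvPolynomial (Fin 2) k} (hF : Le D0 0 F) (hG : Le d0 0 G)
    (h : Te a b D0 d0 (W D0 0 F) (W d0 0 G)) :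
    ∃ (S : MvPolynomial (Fin 2) k →ₐ[k] MvPolynomial (Fin 2) k) (L ρ σ H n : ℕ)
      (f g : Polynomial k) (c : k),
      S (X 0) = X 0 ^ L ∧ 0 < H ∧ 1 ≤ n ∧ c ≠ 0 ∧ f.natDegree = a * n ∧ g.natDegree = b * n ∧
      ((a * H : ℕ) : Polynomial k) * f * Polynomial.derivative g -
        ((b * H : ℕ) : Polynomial k) * Polynomial.derivative f * g = Polynomial.C c ∧
      Vp S L ρ σ F (a * H) f ∧ Vp S L ρ σ G (b * H) g ∧
      Vp S L ρ σ (pderiv 1 F) (a * H + σ) (Polynomial.derivative f) ∧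
      Vp S L ρ σ (pderiv 1 G) (b * H + σ) (Polynomial.derivative g) := by
  obtain ⟨S, L, h1, h2, e, c, ρ0, σ0, A, n, iF, iG, ρ, σ, K, H, h3, h4, h5⟩ := h
  obtain ⟨f, hf⟩ : ∃ f, f = (N ρ σ (S (W D0 0 F))).coeff (ρ * iF + σ * (a * n)) := ⟨_, rfl⟩
  obtain ⟨g, hg⟩ : ∃ g, g = (N ρ σ (S (W d0 0 G))).coeff (ρ * iG + σ * (b * n)) := ⟨_, rfl⟩
  have hfd : f.natDegree = a * n := by rw [hf]; exact (natDegree_N h4.hρ h4.hF).2
  have hgd : g.natDegree = b * n := by rw [hg]; exact (natDegree_N h4.hρ h4.hG).2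
  have hT : ((a : ℤ) + b) * H = K := by exact_mod_cast h5
  have hdiff := h4.hdiff
  rw [hT, sub_self] at hdiff
  have hmm : ρ * iF + σ * (a * n) + (ρ * iG + σ * (b * n)) = σ + ρ * e := by
    zify; linarith
  have heq := term_eq h3.hB h4.hF.le h4.hG.le hmm
  have hD2 : (ρ : ℤ) * (L * D0) - ((ρ * iF + σ * (a * n) : ℕ) : ℤ) = ((a * H : ℕ) : ℤ) := by
    push_cast
    rw [h4.hH]
    linear_combination (ρ : ℤ) * h3.hD
  have hd2 : (ρ : ℤ) * (L * d0) - ((ρ * iG + σ * (b * n) : ℕ) : ℤ) = ((b * H : ℕ) : ℤ) := by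
    push_cast
    rw [h4.hH]
    linear_combination (ρ : ℤ) * h3.hd
  rw [hD2, hd2, ← hf, ← hg] at heq
  simp only [Int.cast_natCast] at heq
  have hρk : (ρ : k) ≠ 0 := by exact_mod_cast h4.hρ.ne'
  have hn : 1 ≤ n := h3.hn
  have bF := N_below h4.hF.le
  have bG := N_below h4.hG.le
  have hD3 : ((ρ : ℤ) * L * D0) - ((ρ * iF + σ * (a * n) : ℕ) : ℤ) = a * H := by
    have := hD2
    push_cast at this ⊢
    linarith
  have hd3 : ((ρ : ℤ) * L * d0) - ((ρ * iG + σ * (b * n) : ℕ) : ℤ) = b * H := by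
    have := hd2
    push_cast at this ⊢
    linarith
  have han : 0 < a * n := Nat.mul_pos (by omega) (by omega)
  have hbn : 0 < b * n := Nat.mul_pos hb (by omega)
  have hf' : Polynomial.derivative f ≠ 0 := by
    intro h6
    have := Polynomial.derivative_eq_zero.1 h6
    omega
  have hg' : Polynomial.derivative g ≠ 0 := by
    intro h6
    have := Polynomial.derivative_eq_zero.1 h6
    omega
  refine ⟨S, L, ρ, σ, H, n, f, g, (ρ : k) * c, h1, h4.hH0, hn, mul_ne_zero hρk h3.hc, hfd, hgd,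
    heq, ?_, ?_, ?_, ?_⟩
  · exact ⟨D0, hF, _, Tp.of bF hf.symm, hD3.symm⟩
  · exact ⟨d0, hG, _, Tp.of bG hg.symm, hd3.symm⟩
  · rw [← hD3, hf]
    exact Vp_pd h2 hF bF (by rw [← hf]; exact hf')
  · rw [← hd3, hg]
    exact Vp_pd h2 hG bG (by rw [← hg]; exact hg')

end Pool.Agent.P8H36.FD
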